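import Pool.Agent.H91.GHK.JKZ
import Pool.Agent.H74.GHK.JKG2

/-!
Page ghk (MP_52e316_nt), row JKZ without hypotheses, from the abstract theorem of helper74
(helper91).
-/

set_option autoImplicit false

namespace Pool.Agent.H91.GHK

open MeasureTheory Pool.Agent.H40.GHK Pool.Agent.H69.GK Pool.Agent.H14.GHK
open Pool.Agent.H34.GM hiding bt
open Pool.Agent.H74.GHK (gf gS core dr)

theorem flg_Ep {m : ℕ} {k : Mat m} (hk : k.det ≠ 0) :
    Flg (fun j : Fin m => Ep k ((j : ℕ) + 1)) where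
  prj := fun i => ⟨Ep_symm k _, Ep_idem hk i.2⟩
  nest i j hij := Ep_nest hk (Nat.succ_le_succ hij) j.2

theorem Ep_orth {m : ℕ} {k : Mat m} (hk : k * k.transpose = 1) {j : ℕ} (hj : j ≤ m) :
    Ep k j = Ek k j := by
  rw [← EP_orth hk hj, Ep_le k hj]
  unfold Pool.Agent.H68.GHK.EP
  rw [dif_pos hj]
  rfl

theorem pw_gf {m : ℕ} (mu : Fin m → ℂ) {k k' z : Mat m} (hk : k * k.transpose = 1)
    (hk' : k' * k'.transpose = 1) (hz : z.det ≠ 0) :
    gf (fun j : Fin m => Ep k ((j : ℕ) + 1)) (fun j : Fin m => Ep k' ((j : ℕ) + 1))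
      (fun j : Fin m => ex mu (j : ℕ) - ex mu ((j : ℕ) + 1)) z =
      pw mu (z * k) * (starRingEnd ℂ) (pw mu (z * k')) := by
  rw [pw_mul mu (orth_det' hk) hz, pw_mul mu (orth_det' hk') hz, pw_orth mu hk, pw_orth mu hk',
    one_mul, one_mul,
    ← Fin.sum_univ_eq_sum_range (fun j => (ex mu j - ex mu (j + 1)) *
      ((Real.log (Dp k (z.transpose * z) (j + 1)) : ℝ) : ℂ)) m,
    ← Fin.sum_univ_eq_sum_range (fun j => (ex mu j - ex mu (j + 1)) *
      ((Real.log (Dp k' (z.transpose * z) (j + 1)) : ℝ) : ℂ)) m]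
  rfl

theorem c_lt {m : ℕ} (mu : Fin m → ℂ) {j : ℕ} (h : j + 1 < m) :
    (ex mu j - ex mu (j + 1)).re = ((mu ⟨j + 1, h⟩).re - (mu ⟨j, by omega⟩).re) / 2 - 1 / 2 ∧
    (ex mu j - ex mu (j + 1)).im = ((mu ⟨j + 1, h⟩).im - (mu ⟨j, by omega⟩).im) / 2 := by
  rw [ex_sub mu h]
  have h1 : (mu ⟨j + 1, h⟩ - mu ⟨j, by omega⟩ - 1) / 2 =
      (mu ⟨j + 1, h⟩ - mu ⟨j, by omega⟩) * ((1 / 2 : ℝ) : ℂ) + ((-(1 / 2) : ℝ) : ℂ) := by
    push_cast
    ring
  rw [h1, Complex.add_re, Complex.add_im, Complex.re_mul_ofReal, Complex.im_mul_ofReal,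
    Complex.ofReal_re, Complex.ofReal_im, Complex.sub_re, Complex.sub_im]
  constructor <;> ring

theorem c_top {m : ℕ} (mu : Fin m → ℂ) (j : Fin m) (h : (j : ℕ) + 1 = m) :
    (ex mu (j : ℕ) - ex mu ((j : ℕ) + 1)).re = -(mu j).re / 2 + ((m : ℝ) - 1) / 4 := by
  rw [h, ex_top, sub_zero, ex_lt]
  have h0 : ((j : ℕ) : ℂ) + 1 = (m : ℂ) := by exact_mod_cast h
  have h1 : (-(mu j) + (2 * (((j : ℕ) : ℂ) + 1) - m - 1) / 2) / 2 =
      mu j * ((-(1 / 2) : ℝ) : ℂ) + ((((m : ℝ) - 1) / 4 : ℝ) : ℂ) := by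
    rw [h0]
    push_cast
    ring
  rw [h1, Complex.add_re, Complex.re_mul_ofReal, Complex.ofReal_re]
  ring

/-- JKZ without hypotheses -/
theorem pf_JKZ0 : T_JKZ := by
  intro m hm1
  obtain ⟨r, hr0, hr, hdet, h⟩ := core m hm1
  have hm0 : (1 : ℝ) ≤ m := by exact_mod_cast hm1
  have hr4 : r ≤ 1 / 4 := by
    refine hr.trans ?_
    exact one_div_le_one_div_of_le (by norm_num) (by linarith)
  refine ⟨r, hr0, by linarith, fun A M => ?_⟩
  obtain ⟨C, hC, hh⟩ := h A (M + m + 1)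
  refine ⟨C, hC, fun mu hmu hmon k k' hk hk' => ?_⟩
  set mu' : Fin m → ℂ := fun j => mu j + ((m / 2 : ℝ) : ℂ) with hmu'
  have him : ∀ j, (mu' j).im = (mu j).im := fun j => by
    rw [hmu']
    show (mu j + ((m / 2 : ℝ) : ℂ)).im = _
    rw [Complex.add_im, Complex.ofReal_im, add_zero]
  have hre : ∀ j, (mu' j).re = (mu j).re + m / 2 := fun j => by
    rw [hmu']
    show (mu j + ((m / 2 : ℝ) : ℂ)).re = _
    rw [Complex.add_re, Complex.ofReal_re]
  set c : Fin m → ℂ := fun j => ex mu' (j : ℕ) - ex mu' ((j : ℕ) + 1) with hc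
  set E : Fin m → Mat m := fun j => Ep k ((j : ℕ) + 1) with hE
  set E' : Fin m → Mat m := fun j => Ep k' ((j : ℕ) + 1) with hE'
  have hcre : ∀ j, |(c j).re| ≤ M + m + 1 := by
    intro j
    rw [hc]
    show |(ex mu' (j : ℕ) - ex mu' ((j : ℕ) + 1)).re| ≤ _
    by_cases hj : (j : ℕ) + 1 < m
    · rw [(c_lt mu' hj).1, hre, hre]
      have h1 := abs_le.1 (hmu ⟨(j : ℕ) + 1, hj⟩)
      have h2 := abs_le.1 (hmu ⟨(j : ℕ), by omega⟩)
      rw [abs_le]
      constructor <;> linarith [h1.1, h1.2, h2.1, h2.2]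
    · have hj' : (j : ℕ) + 1 = m := by have := j.2; omega
      rw [c_top mu' j hj', hre]
      have h1 := abs_le.1 (hmu j)
      rw [abs_le]
      constructor <;> linarith [h1.1, h1.2]
  have hcim : ∀ j, 0 ≤ (c j).im ∨ E j = E' j := by
    intro j
    by_cases hj : (j : ℕ) + 1 < m
    · left
      rw [hc]
      show 0 ≤ (ex mu' (j : ℕ) - ex mu' ((j : ℕ) + 1)).im
      rw [(c_lt mu' hj).2, him, him]
      have h1 : (mu ⟨(j : ℕ), by omega⟩).im ≤ (mu ⟨(j : ℕ) + 1, hj⟩).im := hmon (by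
        rw [Fin.mk_le_mk]
        omega)
      linarith
    · right
      have hj' : (j : ℕ) + 1 = m := by have := j.2; omega
      show Ep k ((j : ℕ) + 1) = Ep k' ((j : ℕ) + 1)
      rw [hj', Ep_full (orth_det' hk), Ep_full (orth_det' hk')]
  have h1 := hh E E' (flg_Ep (orth_det' hk)) (flg_Ep (orth_det' hk')) c hcre hcim
  refine ⟨gS E E' (fun j => |(c j).im|), ?_, ?_, ?_⟩
  · exact Finset.sum_nonneg fun j _ => mul_nonneg (abs_nonneg _) (Real.sqrt_nonneg _)
  · intro p q hpq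
    have hp : (p : ℕ) + 1 < m := by
      rw [← hpq]
      exact q.2
    have h2 : |(c p).im| * Real.sqrt (fsq (E p - E' p)) ≤ gS E E' (fun j => |(c j).im|) :=
      Finset.single_le_sum (f := fun j => |(c j).im| * Real.sqrt (fsq (E j - E' j)))
        (fun j _ => mul_nonneg (abs_nonneg _) (Real.sqrt_nonneg _)) (Finset.mem_univ p)
    have h3 : (c p).im = ((mu q).im - (mu p).im) / 2 := by
      rw [hc]
      show (ex mu' (p : ℕ) - ex mu' ((p : ℕ) + 1)).im = _
      rw [(c_lt mu' hp).2, him, him]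
      have h4 : (⟨(p : ℕ) + 1, hp⟩ : Fin m) = q := by
        ext
        exact hpq.symm
      rw [h4]
    have h5 : E p = Ek k q := by
      show Ep k ((p : ℕ) + 1) = _
      rw [← hpq, Ep_orth hk q.2.le]
    have h6 : E' p = Ek k' q := by
      show Ep k' ((p : ℕ) + 1) = _
      rw [← hpq, Ep_orth hk' q.2.le]
    rw [h5, h6] at h2
    refine le_trans ?_ h2
    refine mul_le_mul_of_nonneg_right ?_ (Real.sqrt_nonneg _)
    rw [← h3]
    exact le_abs_self _
  · refine le_trans (le_of_eq ?_) h1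
    congr 1
    have e1 : ∫ z : V m, ((et A r (mt z) : ℝ) : ℂ) * (pw mu (mt z * k) *
        (starRingEnd ℂ) (pw mu (mt z * k'))) ∂(hm m) =
        ∫ z : V m, ((et A r (mt z) : ℝ) : ℂ) * gf E E' c (mt z) := by
      unfold hm
      rw [integral_withDensity_eq_integral_toReal_smul (dens_meas m)
        (Filter.Eventually.of_forall fun z => ENNReal.ofReal_lt_top)]
      refine integral_congr_ae (Filter.Eventually.of_forall fun z => ?_)
      show (ENNReal.ofReal ((|(mt z).det| ^ m)⁻¹)).toReal • (((et A r (mt z) : ℝ) : ℂ) *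
        (pw mu (mt z * k) * (starRingEnd ℂ) (pw mu (mt z * k')))) =
        ((et A r (mt z) : ℝ) : ℂ) * gf E E' c (mt z)
      rw [ENNReal.toReal_ofReal (by positivity)]
      by_cases hz : fsq (mt z - 1) < r ^ 2
      · have hd : (mt z).det ≠ 0 := hdet _ hz
        have hdk : (mt z * k).det ≠ 0 := by
          rw [Matrix.det_mul]
          exact mul_ne_zero hd (orth_det' hk)
        have hdk' : (mt z * k').det ≠ 0 := by
          rw [Matrix.det_mul]
          exact mul_ne_zero hd (orth_det' hk')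
        have hak : |(mt z * k).det| = |(mt z).det| := by
          rw [Matrix.det_mul, abs_mul, orth_det hk, mul_one]
        have hak' : |(mt z * k').det| = |(mt z).det| := by
          rw [Matrix.det_mul, abs_mul, orth_det hk', mul_one]
        rw [hE, hE', hc, pw_gf mu' hk hk' hd, hmu', pw_shift mu _ hdk, pw_shift mu _ hdk', hak,
          hak', map_mul, Complex.conj_ofReal, Complex.real_smul]
        have hp : 0 < |(mt z).det| := abs_pos.2 hd
        have h5 : (|(mt z).det| ^ m)⁻¹ =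
            |(mt z).det| ^ (-((m : ℝ) / 2)) * |(mt z).det| ^ (-((m : ℝ) / 2)) := by
          rw [← Real.rpow_add hp, ← Real.rpow_natCast, ← Real.rpow_neg hp.le]
          congr 1
          ring
        rw [h5]
        push_cast
        ring
      · unfold et
        rw [if_neg hz, Complex.ofReal_zero, zero_mul, zero_mul, smul_zero]
    rw [e1, ← integral_add_right_eq_self (fun z : V m => ((et A r (mt z) : ℝ) : ℂ) *
      gf E E' c (mt z)) ((fun i j => (1 : Mat m) i j) : V m)]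
    have hms : MeasurableSet {Y : Fin m → Fin m → ℝ | fsq Y < r ^ 2} := by
      refine measurableSet_lt ?_ measurable_const
      unfold fsq
      fun_prop
    rw [← integral_indicator hms]
    refine integral_congr_ae (Filter.Eventually.of_forall fun Y => ?_)
    have e2 : mt (Y + ((fun i j => (1 : Mat m) i j) : V m)) = 1 + Matrix.of Y := by
      ext i j
      show Y i j + (1 : Mat m) i j = (1 : Mat m) i j + Y i j
      ring
    have e3 : (1 + Matrix.of Y : Mat m) - 1 = Y := by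
      rw [add_sub_cancel_left]
      rfl
    show ((et A r (mt (Y + ((fun i j => (1 : Mat m) i j) : V m))) : ℝ) : ℂ) *
      gf E E' c (mt (Y + ((fun i j => (1 : Mat m) i j) : V m))) = _
    rw [e2]
    unfold et
    rw [e3]
    by_cases hY : fsq Y < r ^ 2
    · rw [if_pos hY, Set.indicator_of_mem (show Y ∈ {Y : Fin m → Fin m → ℝ | fsq Y < r ^ 2}
        from hY)]
    · rw [if_neg hY, Set.indicator_of_notMem (show Y ∉ {Y : Fin m → Fin m → ℝ | fsq Y < r ^ 2}
        from hY), Complex.ofReal_zero, zero_mul]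

end Pool.Agent.H91.GHK
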